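import Mathlib

/-!
A lower bound for the constants of general position: a finite planar set `A` with
`(K - 1) * |A + A| < |A| ^ 2`, `K = d (d + 3) / 2 + ⌊d / 2⌋`, has at least `K` points on some
curve of degree `d`.
-/

set_option autoImplicit false

open Filter
open scoped Pointwise

namespace Pool.Agent.Results.MP_68669d_co.ExcessPoints

open MvPolynomial

/-- The real zero set of a polynomial in two variables. -/
def zeroSet (Q : MvPolynomial (Fin 2) ℝ) : Set (ℝ × ℝ) :=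
  {p | MvPolynomial.eval ![p.1, p.2] Q = 0}

/-- Index set of the monomials of degrees `r, r + 2, ..., r + 2 e` in two variables. -/
abbrev Idx (e r : ℕ) : Type := Σ k : Fin (e + 1), Fin (2 * (k : ℕ) + r + 1)

theorem card_Idx (e r : ℕ) : Fintype.card (Idx e r) = (e + 1) * (e + r + 1) := by
  have h1 : Fintype.card (Idx e r) = ∑ k : Fin (e + 1), (2 * (k : ℕ) + r + 1) := by
    rw [Fintype.card_sigma]
    exact Finset.sum_congr rfl fun k _ => Fintype.card_fin _
  rw [h1, Fin.sum_univ_eq_sum_range (fun k => 2 * k + r + 1) (e + 1)]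
  induction e with
  | zero => simp
  | succ n ih =>
    rw [Finset.sum_range_succ, ih]
    · ring
    · rw [Fintype.card_sigma]
      exact Finset.sum_congr rfl fun k _ => Fintype.card_fin _

/-- The exponent vector of an index. -/
noncomputable def expo {e r : ℕ} (i : Idx e r) : Fin 2 →₀ ℕ :=
  Finsupp.single 0 (i.2 : ℕ) + Finsupp.single 1 (2 * (i.1 : ℕ) + r - (i.2 : ℕ))

theorem expo_zero {e r : ℕ} (i : Idx e r) : expo i 0 = (i.2 : ℕ) := by
  simp [expo]

theorem expo_one {e r : ℕ} (i : Idx e r) : expo i 1 = 2 * (i.1 : ℕ) + r - (i.2 : ℕ) := by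
  simp [expo]

theorem expo_injective {e r : ℕ} : Function.Injective (expo : Idx e r → (Fin 2 →₀ ℕ)) := by
  rintro ⟨k, a⟩ ⟨l, b⟩ h
  have h0 : (a : ℕ) = (b : ℕ) := by
    have := DFunLike.congr_fun h 0
    rwa [expo_zero, expo_zero] at this
  have h1 : 2 * (k : ℕ) + r - (a : ℕ) = 2 * (l : ℕ) + r - (b : ℕ) := by
    have := DFunLike.congr_fun h 1
    rwa [expo_one, expo_one] at this
  have ha := a.2
  have hb := b.2
  have hkl : k = l := by
    apply Fin.ext
    omega
  subst hkl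
  have hab : a = b := Fin.ext h0
  rw [hab]

/-- The polynomial with coefficients `w` in the monomials of the index set. -/
noncomputable def base {e r : ℕ} (w : Idx e r → ℝ) : MvPolynomial (Fin 2) ℝ :=
  ∑ i, monomial (expo i) (w i)

theorem coeff_base {e r : ℕ} (w : Idx e r → ℝ) (i : Idx e r) :
    coeff (expo i) (base w) = w i := by
  classical
  unfold base
  rw [coeff_sum]
  rw [Finset.sum_eq_single i]
  · rw [coeff_monomial, if_pos rfl]
  · intro j _ hj
    rw [coeff_monomial, if_neg fun h => hj (expo_injective h)]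
  · intro h
    exact absurd (Finset.mem_univ i) h

theorem base_ne_zero {e r : ℕ} (w : Idx e r → ℝ) (hw : w ≠ 0) : base w ≠ 0 := by
  intro h
  apply hw
  funext i
  rw [← coeff_base w i, h, coeff_zero]
  rfl

theorem eval_base {e r : ℕ} (w : Idx e r → ℝ) (z : Fin 2 → ℝ) :
    eval z (base w) =
      ∑ i : Idx e r, w i * (z 0 ^ (i.2 : ℕ) * z 1 ^ (2 * (i.1 : ℕ) + r - (i.2 : ℕ))) := by
  unfold base
  rw [map_sum]
  refine Finset.sum_congr rfl fun i _ => ?_
  rw [eval_monomial, Finsupp.prod_fintype _ _ fun _ => pow_zero _, Fin.prod_univ_two, expo_zero,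
    expo_one]

/-- The polynomial with coefficients `w`, recentred at `c`. -/
noncomputable def shifted {e r : ℕ} (w : Idx e r → ℝ) (c : ℝ × ℝ) : MvPolynomial (Fin 2) ℝ :=
  ∑ i : Idx e r, C (w i) * ((X 0 - C c.1) ^ (i.2 : ℕ) *
    (X 1 - C c.2) ^ (2 * (i.1 : ℕ) + r - (i.2 : ℕ)))

theorem eval_shifted {e r : ℕ} (w : Idx e r → ℝ) (c : ℝ × ℝ) (z : Fin 2 → ℝ) :
    eval z (shifted w c) = eval ![z 0 - c.1, z 1 - c.2] (base w) := by
  rw [eval_base]
  unfold shifted
  rw [map_sum]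
  refine Finset.sum_congr rfl fun i _ => ?_
  simp

theorem shifted_ne_zero {e r : ℕ} (w : Idx e r → ℝ) (hw : w ≠ 0) (c : ℝ × ℝ) :
    shifted w c ≠ 0 := by
  intro h
  apply base_ne_zero w hw
  apply MvPolynomial.funext
  intro z
  have h1 := eval_shifted w c ![z 0 + c.1, z 1 + c.2]
  rw [h, map_zero] at h1
  rw [map_zero]
  have h2 : (![(![z 0 + c.1, z 1 + c.2] : Fin 2 → ℝ) 0 - c.1,
      (![z 0 + c.1, z 1 + c.2] : Fin 2 → ℝ) 1 - c.2] : Fin 2 → ℝ) = z := by
    funext i
    fin_cases i <;> simp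
  rw [h2] at h1
  exact h1.symm

theorem totalDegree_linear_le (j : Fin 2) (a : ℝ) :
    (X j - C a : MvPolynomial (Fin 2) ℝ).totalDegree ≤ 1 := by
  refine (totalDegree_sub _ _).trans ?_
  rw [totalDegree_X, totalDegree_C]
  exact le_rfl

theorem totalDegree_shifted {e r : ℕ} (w : Idx e r → ℝ) (c : ℝ × ℝ) :
    (shifted w c).totalDegree ≤ 2 * e + r := by
  unfold shifted
  refine totalDegree_finsetSum_le fun i _ => ?_
  refine (totalDegree_mul _ _).trans ?_
  rw [totalDegree_C, zero_add]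
  refine (totalDegree_mul _ _).trans ?_
  have h1 : ((X 0 - C c.1 : MvPolynomial (Fin 2) ℝ) ^ (i.2 : ℕ)).totalDegree ≤ (i.2 : ℕ) := by
    refine (totalDegree_pow _ _).trans ?_
    calc (i.2 : ℕ) * (X 0 - C c.1 : MvPolynomial (Fin 2) ℝ).totalDegree ≤ (i.2 : ℕ) * 1 :=
          Nat.mul_le_mul_left _ (totalDegree_linear_le 0 c.1)
      _ = (i.2 : ℕ) := mul_one _
  have h2 : ((X 1 - C c.2 : MvPolynomial (Fin 2) ℝ) ^
      (2 * (i.1 : ℕ) + r - (i.2 : ℕ))).totalDegree ≤ 2 * (i.1 : ℕ) + r - (i.2 : ℕ) := by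
    refine (totalDegree_pow _ _).trans ?_
    calc (2 * (i.1 : ℕ) + r - (i.2 : ℕ)) * (X 1 - C c.2 : MvPolynomial (Fin 2) ℝ).totalDegree
          ≤ (2 * (i.1 : ℕ) + r - (i.2 : ℕ)) * 1 :=
          Nat.mul_le_mul_left _ (totalDegree_linear_le 1 c.2)
      _ = 2 * (i.1 : ℕ) + r - (i.2 : ℕ) := mul_one _
  have h3 := i.2.2
  have h4 := i.1.2
  omega

/-- The recentred polynomial is even or odd about `c`. -/
theorem eval_reflect {e r : ℕ} (w : Idx e r → ℝ) (s p : ℝ × ℝ) :
    eval ![(s - p).1, (s - p).2] (shifted w ((1 / 2 : ℝ) • s)) =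
      (-1) ^ r * eval ![p.1, p.2] (shifted w ((1 / 2 : ℝ) • s)) := by
  rw [eval_shifted, eval_shifted, eval_base, eval_base, Finset.mul_sum]
  refine Finset.sum_congr rfl fun i _ => ?_
  have h0 : (s - p).1 - ((1 / 2 : ℝ) • s).1 = -1 * (p.1 - ((1 / 2 : ℝ) • s).1) := by
    simp only [Prod.fst_sub, Prod.smul_fst, smul_eq_mul]
    ring
  have h1 : (s - p).2 - ((1 / 2 : ℝ) • s).2 = -1 * (p.2 - ((1 / 2 : ℝ) • s).2) := by
    simp only [Prod.snd_sub, Prod.smul_snd, smul_eq_mul]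
    ring
  have h3 := i.2.2
  have h4 : ((-1 : ℝ)) ^ (i.2 : ℕ) * (-1) ^ (2 * (i.1 : ℕ) + r - (i.2 : ℕ)) = (-1) ^ r := by
    rw [← pow_add]
    have h5 : (i.2 : ℕ) + (2 * (i.1 : ℕ) + r - (i.2 : ℕ)) = 2 * (i.1 : ℕ) + r := by omega
    rw [h5, pow_add, pow_mul]
    norm_num
  simp only [Matrix.cons_val_zero, Matrix.cons_val_one]
  rw [h0, h1, mul_pow, mul_pow, ← h4]
  ring

/-- A nonzero polynomial of degree at most `2 e + r`, even or odd about `s / 2`, vanishing at fewer
than `(e + 1) (e + r + 1)` given points. -/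
theorem exists_poly (e r : ℕ) (s : ℝ × ℝ) (T : Finset (ℝ × ℝ))
    (hT : T.card < (e + 1) * (e + r + 1)) :
    ∃ w : Idx e r → ℝ, w ≠ 0 ∧
      ∀ p ∈ T, eval ![p.1, p.2] (shifted w ((1 / 2 : ℝ) • s)) = 0 := by
  classical
  let f : (Idx e r → ℝ) →ₗ[ℝ] (T → ℝ) :=
    { toFun := fun w p => eval ![p.1.1, p.1.2] (shifted w ((1 / 2 : ℝ) • s))
      map_add' := by
        intro w v
        funext p
        simp only [Pi.add_apply]
        rw [eval_shifted, eval_shifted, eval_shifted, eval_base, eval_base, eval_base,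
          ← Finset.sum_add_distrib]
        refine Finset.sum_congr rfl fun i _ => ?_
        simp only [Pi.add_apply]
        ring
      map_smul' := by
        intro a w
        funext p
        simp only [Pi.smul_apply, smul_eq_mul, RingHom.id_apply]
        rw [eval_shifted, eval_shifted, eval_base, eval_base, Finset.mul_sum]
        refine Finset.sum_congr rfl fun i _ => ?_
        simp only [Pi.smul_apply, smul_eq_mul]
        ring }
  have hfin : Module.finrank ℝ (T → ℝ) < Module.finrank ℝ (Idx e r → ℝ) := by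
    rw [Module.finrank_fintype_fun_eq_card, Module.finrank_fintype_fun_eq_card, card_Idx,
      Fintype.card_coe]
    exact hT
  have hker := LinearMap.ker_ne_bot_of_finrank_lt (f := f) hfin
  obtain ⟨w, hw, hw0⟩ := (Submodule.ne_bot_iff _).1 hker
  refine ⟨w, hw0, fun p hp => ?_⟩
  have h1 : f w = 0 := hw
  exact congrFun h1 ⟨p, hp⟩

/-- Pairs with a common centre in a set with a popular sum. -/
theorem exists_pairs (A : Finset (ℝ × ℝ)) (m : ℕ) (hm : 1 ≤ m)
    (h : (2 * m - 1) * (A + A).card < A.card ^ 2) :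
    ∃ (s : ℝ × ℝ) (T : Finset (ℝ × ℝ)), T.card = m ∧ T ⊆ A ∧ (∀ x ∈ T, s - x ∈ A) ∧
      (∀ x ∈ T, ∀ y ∈ T, s - x ≠ y) := by
  classical
  have h1 : (A + A).card * (2 * m - 1) < (A ×ˢ A).card := by
    rw [Finset.card_product]
    calc (A + A).card * (2 * m - 1) = (2 * m - 1) * (A + A).card := mul_comm _ _
      _ < A.card ^ 2 := h
      _ = A.card * A.card := pow_two _
  obtain ⟨s, -, hs⟩ := Finset.exists_lt_card_fiber_of_mul_lt_card_of_maps_to
    (s := A ×ˢ A) (t := A + A) (f := fun q : (ℝ × ℝ) × (ℝ × ℝ) => q.1 + q.2)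
    (fun q hq => Finset.add_mem_add (Finset.mem_product.1 hq).1 (Finset.mem_product.1 hq).2) h1
  -- the symmetric set
  obtain ⟨B, hB⟩ : ∃ B : Finset (ℝ × ℝ), B = A.filter fun x => s - x ∈ A := ⟨_, rfl⟩
  have hBcard : 2 * m ≤ B.card := by
    have h2 : ((A ×ˢ A).filter fun q : (ℝ × ℝ) × (ℝ × ℝ) => q.1 + q.2 = s).card ≤ B.card := by
      refine Finset.card_le_card_of_injOn (fun q => q.1) ?_ ?_
      · intro q hq
        rw [Finset.mem_coe, Finset.mem_filter, Finset.mem_product] at hq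
        rw [hB, Finset.mem_coe, Finset.mem_filter]
        refine ⟨hq.1.1, ?_⟩
        have h3 : s - q.1 = q.2 := by
          rw [← hq.2]
          abel
        rw [h3]
        exact hq.1.2
      · intro q hq q' hq' hqq
        rw [Finset.mem_coe, Finset.mem_filter] at hq hq'
        have h3 : q.2 = q'.2 := by
          have h4 : q.2 = s - q.1 := by
            rw [← hq.2]
            abel
          have h5 : q'.2 = s - q'.1 := by
            rw [← hq'.2]
            abel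
          have hqq' : q.1 = q'.1 := hqq
          rw [h4, h5, hqq']
        exact Prod.ext hqq h3
    omega
  obtain ⟨U, hU⟩ : ∃ U : Finset (ℝ × ℝ), U = B.filter fun x => toLex x < toLex (s - x) := ⟨_, rfl⟩
  have hsub : B ⊆ (U ∪ U.image fun x => s - x) ∪ {(1 / 2 : ℝ) • s} := by
    intro x hx
    have hx' : x ∈ A ∧ s - x ∈ A := by
      rw [hB, Finset.mem_filter] at hx
      exact hx
    rcases lt_trichotomy (toLex x) (toLex (s - x)) with h2 | h2 | h2
    · refine Finset.mem_union_left _ (Finset.mem_union_left _ ?_)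
      rw [hU, Finset.mem_filter]
      exact ⟨hx, h2⟩
    · refine Finset.mem_union_right _ ?_
      rw [Finset.mem_singleton]
      have h3 : x = s - x := toLex.injective h2
      have h4 : s = x + x := by
        nth_rewrite 1 [h3]
        abel
      rw [h4, ← two_smul ℝ x, smul_smul]
      norm_num
    · refine Finset.mem_union_left _ (Finset.mem_union_right _ ?_)
      rw [Finset.mem_image]
      refine ⟨s - x, ?_, by abel⟩
      rw [hU, Finset.mem_filter, hB, Finset.mem_filter]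
      have h3 : s - (s - x) = x := by abel
      rw [h3]
      exact ⟨⟨hx'.2, hx'.1⟩, h2⟩
  have hUcard : m ≤ U.card := by
    have h2 := Finset.card_le_card hsub
    have h3 := Finset.card_union_le (U ∪ U.image fun x => s - x) {(1 / 2 : ℝ) • s}
    have h4 := Finset.card_union_le U (U.image fun x => s - x)
    have h5 : (U.image fun x => s - x).card ≤ U.card := Finset.card_image_le
    rw [Finset.card_singleton] at h3
    omega
  obtain ⟨T, hTU, hTm⟩ := Finset.exists_subset_card_eq hUcard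
  refine ⟨s, T, hTm, ?_, ?_, ?_⟩
  · intro x hx
    have h2 := hTU hx
    rw [hU, Finset.mem_filter, hB, Finset.mem_filter] at h2
    exact h2.1.1
  · intro x hx
    have h2 := hTU hx
    rw [hU, Finset.mem_filter, hB, Finset.mem_filter] at h2
    exact h2.1.2
  · intro x hx y hy hxy
    have h2 := hTU hx
    have h3 := hTU hy
    rw [hU, Finset.mem_filter] at h2 h3
    have h4 := h2.2
    have h5 := h3.2
    rw [← hxy] at h5
    have h6 : s - (s - x) = x := by abel
    rw [h6] at h5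
    exact lt_asymm h4 h5

/-- Polynomials of degree at most `d` can be multiplied up to degree `d`. -/
theorem exact_degree (P : MvPolynomial (Fin 2) ℝ) (hP : P ≠ 0) (d : ℕ) (hd : P.totalDegree ≤ d) :
    (P * X 0 ^ (d - P.totalDegree)).totalDegree = d := by
  rw [totalDegree_mul_of_isDomain hP (pow_ne_zero _ (X_ne_zero 0)), totalDegree_X_pow]
  omega

/-- The finite statement, with `d = 2 e + r`, `r = 0, 1`. -/
theorem finite_form (A : Finset (ℝ × ℝ)) (e r m : ℕ) (hm : 1 ≤ m)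
    (hmer : m < (e + 1) * (e + r + 1)) (h : (2 * m - 1) * (A + A).card < A.card ^ 2) :
    ∃ P : MvPolynomial (Fin 2) ℝ, P ≠ 0 ∧ P.totalDegree = 2 * e + r ∧
      2 * m ≤ {p : ℝ × ℝ | p ∈ A ∧ p ∈ zeroSet P}.ncard := by
  classical
  obtain ⟨s, T, hTm, hTA, hTs, hTd⟩ := exists_pairs A m hm h
  obtain ⟨w, hw, hvan⟩ := exists_poly e r s T (by rw [hTm]; exact hmer)
  obtain ⟨Q, hQ⟩ : ∃ Q, Q = shifted w ((1 / 2 : ℝ) • s) := ⟨_, rfl⟩
  have hQ0 : Q ≠ 0 := by
    rw [hQ]
    exact shifted_ne_zero w hw _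
  have hQd : Q.totalDegree ≤ 2 * e + r := by
    rw [hQ]
    exact totalDegree_shifted w _
  refine ⟨Q * X 0 ^ (2 * e + r - Q.totalDegree),
    mul_ne_zero hQ0 (pow_ne_zero _ (X_ne_zero 0)), exact_degree Q hQ0 _ hQd, ?_⟩
  have hinj : Function.Injective fun x : ℝ × ℝ => s - x := fun x y hxy => by
    have hxy' : s - x = s - y := hxy
    exact sub_right_injective hxy'
  have hdisj : Disjoint T (T.image fun x => s - x) := by
    rw [Finset.disjoint_right]
    intro y hy hyT
    rw [Finset.mem_image] at hy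
    obtain ⟨x, hx, hxy⟩ := hy
    exact hTd x hx y hyT hxy
  have hcard : (T ∪ T.image fun x => s - x).card = 2 * m := by
    rw [Finset.card_union_of_disjoint hdisj, Finset.card_image_of_injective _ hinj, hTm]
    ring
  rw [← hcard, ← Set.ncard_coe_finset]
  refine Set.ncard_le_ncard ?_ ?_
  · intro p hp
    rw [Finset.mem_coe, Finset.mem_union, Finset.mem_image] at hp
    have key : p ∈ A ∧ eval ![p.1, p.2] Q = 0 := by
      rcases hp with hp | ⟨x, hx, rfl⟩
      · refine ⟨hTA hp, ?_⟩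
        rw [hQ]
        exact hvan p hp
      · refine ⟨hTs x hx, ?_⟩
        rw [hQ, eval_reflect, hvan x hx, mul_zero]
    refine ⟨key.1, ?_⟩
    show eval ![p.1, p.2] (Q * X 0 ^ (2 * e + r - Q.totalDegree)) = 0
    rw [map_mul, key.2, zero_mul]
  · exact A.finite_toSet.subset fun p hp => hp.1

/-- The number of points: `d (d + 3) / 2 + ⌊d / 2⌋` is `2 ((e + 1) (e + r + 1) - 1)`. -/
theorem excess_eq (d : ℕ) (hd : 1 ≤ d) :
    ∃ e r m : ℕ, d = 2 * e + r ∧ 1 ≤ m ∧ m < (e + 1) * (e + r + 1) ∧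
      d * (d + 3) / 2 + d / 2 = 2 * m := by
  rcases Nat.even_or_odd' d with ⟨e, he | he⟩
  · subst he
    have he1 : 1 ≤ e := by omega
    refine ⟨e, 0, e * e + 2 * e, by ring, by nlinarith, ?_, ?_⟩
    · have : (e + 1) * (e + 0 + 1) = e * e + 2 * e + 1 := by ring
      omega
    · have h1 : 2 * e * (2 * e + 3) = 2 * (e * (2 * e + 3)) := by ring
      rw [h1, Nat.mul_div_cancel_left _ two_pos, Nat.mul_div_cancel_left _ two_pos]
      ring
  · subst he
    refine ⟨e, 1, e * e + 3 * e + 1, by ring, by omega, ?_, ?_⟩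
    · have : (e + 1) * (e + 1 + 1) = e * e + 3 * e + 2 := by ring
      omega
    · have h1 : (2 * e + 1) * (2 * e + 1 + 3) = 2 * ((2 * e + 1) * (e + 2)) := by ring
      have h2 : (2 * e + 1) / 2 = e := by omega
      rw [h1, Nat.mul_div_cancel_left _ two_pos, h2]
      ring

/-- **Lower bounds for the constants of general position.** Let `K = d (d + 3) / 2 + ⌊d / 2⌋`.
(1) If `A` is a finite planar set with `(K - 1) |A + A| < |A| ^ 2`, then some curve of degree `d`
contains at least `K` points of `A`.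
(2) If `|A_n| → ∞` and `|A_n + A_n| / |A_n| ^ 2 → 0`, then for every `d ≥ 1` and all large `n` some
curve of degree `d` contains at least `K` points of `A_n`.
(3) This holds in particular if `|A_n| → ∞` and `|A_n + A_n| ≤ |A_n| ^ (1 + ε)` for every `ε > 0`
and all large `n`. -/
theorem result :
    (∀ (A : Finset (ℝ × ℝ)) (d : ℕ), 1 ≤ d →
      (d * (d + 3) / 2 + d / 2 - 1) * (A + A).card < A.card ^ 2 →
      ∃ P : MvPolynomial (Fin 2) ℝ, P ≠ 0 ∧ P.totalDegree = d ∧
        d * (d + 3) / 2 + d / 2 ≤ {p : ℝ × ℝ | p ∈ A ∧ p ∈ zeroSet P}.ncard) ∧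
    (∀ A : ℕ → Finset (ℝ × ℝ), Tendsto (fun n => (A n).card) atTop atTop →
      Tendsto (fun n => (((A n + A n).card : ℕ) : ℝ) / (((A n).card : ℕ) : ℝ) ^ 2) atTop
        (nhds 0) →
      ∀ d : ℕ, 1 ≤ d → ∀ᶠ n in atTop, ∃ P : MvPolynomial (Fin 2) ℝ, P ≠ 0 ∧ P.totalDegree = d ∧
        d * (d + 3) / 2 + d / 2 ≤ {p : ℝ × ℝ | p ∈ A n ∧ p ∈ zeroSet P}.ncard) ∧
    (∀ A : ℕ → Finset (ℝ × ℝ), Tendsto (fun n => (A n).card) atTop atTop →
      (∀ ε : ℝ, 0 < ε →
        ∀ᶠ n in atTop, (((A n + A n).card : ℕ) : ℝ) ≤ (((A n).card : ℕ) : ℝ) ^ (1 + ε)) →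
      ∀ d : ℕ, 1 ≤ d → ∀ᶠ n in atTop, ∃ P : MvPolynomial (Fin 2) ℝ, P ≠ 0 ∧ P.totalDegree = d ∧
        d * (d + 3) / 2 + d / 2 ≤ {p : ℝ × ℝ | p ∈ A n ∧ p ∈ zeroSet P}.ncard) := by
  have part1 : ∀ (A : Finset (ℝ × ℝ)) (d : ℕ), 1 ≤ d →
      (d * (d + 3) / 2 + d / 2 - 1) * (A + A).card < A.card ^ 2 →
      ∃ P : MvPolynomial (Fin 2) ℝ, P ≠ 0 ∧ P.totalDegree = d ∧
        d * (d + 3) / 2 + d / 2 ≤ {p : ℝ × ℝ | p ∈ A ∧ p ∈ zeroSet P}.ncard := by
    intro A d hd h
    obtain ⟨e, r, m, hder, hm, hmer, hK⟩ := excess_eq d hd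
    rw [hK] at h ⊢
    obtain ⟨P, hP0, hPd, hP⟩ := finite_form A e r m hm hmer h
    exact ⟨P, hP0, by rw [hPd, hder], hP⟩
  have part2 : ∀ A : ℕ → Finset (ℝ × ℝ), Tendsto (fun n => (A n).card) atTop atTop →
      Tendsto (fun n => (((A n + A n).card : ℕ) : ℝ) / (((A n).card : ℕ) : ℝ) ^ 2) atTop
        (nhds 0) →
      ∀ d : ℕ, 1 ≤ d → ∀ᶠ n in atTop, ∃ P : MvPolynomial (Fin 2) ℝ, P ≠ 0 ∧ P.totalDegree = d ∧
        d * (d + 3) / 2 + d / 2 ≤ {p : ℝ × ℝ | p ∈ A n ∧ p ∈ zeroSet P}.ncard := by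
    intro A hA hdoub d hd
    obtain ⟨K, hK⟩ : ∃ K, K = d * (d + 3) / 2 + d / 2 := ⟨_, rfl⟩
    have hpos : (0 : ℝ) < 1 / ((K : ℝ) + 1) := by positivity
    filter_upwards [hdoub.eventually_lt_const hpos, hA.eventually_ge_atTop 1] with n hn hn1
    apply part1 (A n) d hd
    rw [← hK]
    have hN0 : (0 : ℝ) < ((A n).card : ℝ) := by exact_mod_cast hn1
    have hsq0 : (0 : ℝ) < ((A n).card : ℝ) ^ 2 := by positivity
    rw [div_lt_div_iff₀ hsq0 (by positivity)] at hn
    have hnn : (0 : ℝ) ≤ ((A n + A n).card : ℝ) := Nat.cast_nonneg _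
    have hfin : ((K : ℝ)) * ((A n + A n).card : ℝ) < ((A n).card : ℝ) ^ 2 := by nlinarith
    have hfin' : K * (A n + A n).card < (A n).card ^ 2 := by exact_mod_cast hfin
    exact lt_of_le_of_lt (Nat.mul_le_mul_right _ (Nat.sub_le K 1)) hfin'
  refine ⟨part1, part2, ?_⟩
  intro A hA hdoub
  apply part2 A hA
  have h1 := hdoub (1 / 2) (by norm_num)
  have hA' : Tendsto (fun n => (((A n).card : ℕ) : ℝ)) atTop atTop :=
    tendsto_natCast_atTop_atTop.comp hA
  have h0 : Tendsto (fun n => (((A n).card : ℕ) : ℝ) ^ (-(1 / 2 : ℝ))) atTop (nhds 0) :=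
    (tendsto_rpow_neg_atTop (by norm_num : (0 : ℝ) < 1 / 2)).comp hA'
  refine squeeze_zero' (Eventually.of_forall fun n => by positivity) ?_ h0
  filter_upwards [h1, hA.eventually_ge_atTop 1] with n hn hn1
  have hN0 : (0 : ℝ) < ((A n).card : ℝ) := by exact_mod_cast hn1
  have hsq0 : (0 : ℝ) < ((A n).card : ℝ) ^ 2 := by positivity
  rw [div_le_iff₀ hsq0]
  refine hn.trans (le_of_eq ?_)
  rw [← Real.rpow_natCast, ← Real.rpow_add hN0]
  norm_num

end Pool.Agent.Results.MP_68669d_co.ExcessPoints
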