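import Pool.Agent.H21.PA.Asy

/-!
For every `ε > 0` there are finite planar sets `A_n` with `|A_n + A_n| ≤ |A_n| ^ (1 + ε)` in
general position with respect to all algebraic curves, with constants of order `log (1 / ε)`.
-/

set_option autoImplicit false

open Filter
open scoped Pointwise

namespace Pool.Agent.Results.MP_68669d_co.LogarithmicConstants

open Pool.Agent.H21.PA

/-- The real zero set of a polynomial in two variables. -/
def zeroSet (Q : MvPolynomial (Fin 2) ℝ) : Set (ℝ × ℝ) :=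
  {p | MvPolynomial.eval ![p.1, p.2] Q = 0}

/-- For every `0 < ε ≤ 1` there are finite planar sets `A_n` with `|A_n| → ∞` and
`|A_n + A_n| ≤ |A_n| ^ (1 + ε)` for all large `n` which are in general position: for every `d` the
number of points of `A_n` on a curve of degree at most `d` is bounded, and for all large `n` it is
at most `2 ^ (17 d ^ 2) * log₂ (2 / ε)` and at most `9 d (d + 3) / ε`. -/
theorem result (ε : ℝ) (hε : 0 < ε) (hε1 : ε ≤ 1) :
    ∃ A : ℕ → Finset (ℝ × ℝ),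
      Tendsto (fun n => (A n).card) atTop atTop ∧
      (∀ᶠ n in atTop, (((A n + A n).card : ℕ) : ℝ) ≤ (((A n).card : ℕ) : ℝ) ^ (1 + ε)) ∧
      (∀ d : ℕ, ∃ K : ℕ, ∀ n : ℕ, ∀ P : MvPolynomial (Fin 2) ℝ, P ≠ 0 → P.totalDegree ≤ d →
        {p : ℝ × ℝ | p ∈ A n ∧ p ∈ zeroSet P}.ncard ≤ K) ∧
      (∀ d : ℕ, ∀ᶠ n in atTop, ∀ P : MvPolynomial (Fin 2) ℝ, P ≠ 0 → P.totalDegree ≤ d →
        ({p : ℝ × ℝ | p ∈ A n ∧ p ∈ zeroSet P}.ncard : ℝ) ≤
            2 ^ (17 * d ^ 2) * Real.logb 2 (2 / ε) ∧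
        ({p : ℝ × ℝ | p ∈ A n ∧ p ∈ zeroSet P}.ncard : ℝ) ≤ 9 * d * (d + 3) / ε) := by
  classical
  -- the integer parameter
  obtain ⟨i, hi⟩ : ∃ i : ℕ, i = ⌈Real.logb 2 (1 / ε)⌉₊ := ⟨_, rfl⟩
  have h1ε : 1 ≤ 1 / ε := by rwa [le_div_iff₀ hε, one_mul]
  have hlog0 : 0 ≤ Real.logb 2 (1 / ε) := Real.logb_nonneg one_lt_two h1ε
  have hlog2 : Real.logb 2 (2 / ε) = 1 + Real.logb 2 (1 / ε) := by
    rw [show (2 : ℝ) / ε = 2 * (1 / ε) by ring, Real.logb_mul two_ne_zero (by positivity),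
      Real.logb_self_eq_one one_lt_two]
  have hi1 : Real.logb 2 (1 / ε) ≤ i := by
    rw [hi]
    exact Nat.le_ceil _
  have hi2 : (i : ℝ) ≤ Real.logb 2 (2 / ε) := by
    rw [hlog2, hi]
    have := Nat.ceil_lt_add_one hlog0
    linarith
  have hpow1 : 1 / ε ≤ (2 : ℝ) ^ i := by
    rw [← Real.rpow_natCast, ← Real.logb_le_iff_le_rpow one_lt_two (by positivity)]
    exact hi1
  have hpow2 : (2 : ℝ) ^ i ≤ 2 / ε := by
    rw [← Real.rpow_natCast, ← Real.le_logb_iff_rpow_le one_lt_two (by positivity)]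
    exact hi2
  -- the construction
  obtain ⟨x, hx⟩ : ∃ x, x = ∑ s ∈ SS (2 * i + 7) (DD i), s + 1 + 2 ^ (i + 4) := ⟨_, rfl⟩
  have hx1 : x < 2 ^ (i + 5) := by
    have h1 := DD_spec i
    have h2 : 2 ^ (i + 5) = 2 ^ (i + 4) + 2 ^ (i + 4) := by ring
    omega
  have hx2 : 2 ^ (i + 5) ≤ 2 ^ (2 * i + 6) := Nat.pow_le_pow_right two_pos (by omega)
  obtain ⟨A, hA1, hA2, hA3⟩ := exists_seq (2 ^ (2 * i + 6)) (2 * i + 7) (DD i) (2 ^ (i + 4))
    (Nat.pow_lt_pow_right one_lt_two (by omega)) (by omega)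
    (by
      calc 3 ≤ 2 ^ 4 := by norm_num
        _ ≤ 2 ^ (i + 4) := Nat.pow_le_pow_right two_pos (by omega))
    (by omega) ε hε
    (by
      rw [← hx]
      have h1 : (x : ℝ) < 2 ^ (i + 5) := by exact_mod_cast hx1
      have h2 : (2 : ℝ) ^ (i + 6) ≤ ε * 2 ^ (2 * i + 6) := by
        rw [div_le_iff₀ hε] at hpow1
        have h3 : ε * (2 : ℝ) ^ (2 * i + 6) = (2 ^ i * ε) * 2 ^ (i + 6) := by ring
        rw [h3]
        exact le_mul_of_one_le_left (by positivity) hpow1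
      have h3 : (2 : ℝ) ^ (i + 6) = 2 * 2 ^ (i + 5) := by ring
      have h4 : (0 : ℝ) ≤ x := by positivity
      push_cast
      nlinarith)
  have hbound : ∀ d : ℕ, ∀ᶠ n in atTop, ∀ P : MvPolynomial (Fin 2) ℝ, P ≠ 0 →
      P.totalDegree ≤ d →
      {p : ℝ × ℝ | p ∈ A n ∧ p ∈ zeroSet P}.ncard ≤ md (2 ^ (2 * i + 6)) (2 ^ (i + 4)) d ∧
      (d ≤ DD i → {p : ℝ × ℝ | p ∈ A n ∧ p ∈ zeroSet P}.ncard ≤
        2 * mm d * (d * (2 * i + 7)) * d ^ 2) := by
    intro d
    filter_upwards [hA3 d] with n hn P hP hPd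
    have h2 : {q : ℝ × ℝ | q ∈ A n ∧ q ∈ zeroSet P} =
        ((A n).filter fun q => MvPolynomial.eval ![q.1, q.2] P = 0 : Finset _) := by
      ext q
      simp only [Finset.coe_filter, Set.mem_ofPred_eq]
      exact Iff.rfl
    rw [h2, Set.ncard_coe_finset]
    exact hn P hP hPd _ (Finset.filter_subset _ _) fun q hq => (Finset.mem_filter.mp hq).2
  refine ⟨A, hA1, hA2, ?_, ?_⟩
  · intro d
    obtain ⟨N, hN⟩ := eventually_atTop.1 (hbound d)
    refine ⟨md (2 ^ (2 * i + 6)) (2 ^ (i + 4)) d + ∑ n ∈ Finset.range N, (A n).card,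
      fun n P hP hPd => ?_⟩
    rcases le_or_gt N n with h | h
    · exact (hN n h P hP hPd).1.trans (Nat.le_add_right _ _)
    · have h1 : {p : ℝ × ℝ | p ∈ A n ∧ p ∈ zeroSet P}.ncard ≤ (A n).card := by
        rw [← Set.ncard_coe_finset]
        exact Set.ncard_le_ncard (fun p hp => hp.1) (A n).finite_toSet
      have h2 : (A n).card ≤ ∑ n ∈ Finset.range N, (A n).card :=
        Finset.single_le_sum (f := fun n => (A n).card) (fun _ _ => Nat.zero_le _)
          (Finset.mem_range.mpr h)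
      omega
  · intro d
    filter_upwards [hbound d] with n hn P hP hPd
    obtain ⟨hn1, hn2⟩ := hn P hP hPd
    have hlog1 : 1 ≤ Real.logb 2 (2 / ε) := by
      rw [hlog2]
      linarith
    rcases Nat.eq_zero_or_pos d with rfl | hd
    · have h1 := hn2 (Nat.zero_le _)
      have h2 : {p : ℝ × ℝ | p ∈ A n ∧ p ∈ zeroSet P}.ncard = 0 := by
        simpa using h1
      rw [h2]
      refine ⟨?_, ?_⟩
      · push_cast
        positivity
      · simp
    · refine ⟨?_, ?_⟩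
      · rcases le_or_gt d (DD i) with h | h
        · have h1 := (Nat.mul_le_mul_left 2 (hn2 h)).trans (first_le i d hd)
          have h3 : 2 * ({p : ℝ × ℝ | p ∈ A n ∧ p ∈ zeroSet P}.ncard : ℝ) ≤
              2 ^ (17 * d ^ 2) * ((i : ℝ) + 1) := by exact_mod_cast h1
          have h4 : (0 : ℝ) < 2 ^ (17 * d ^ 2) := by positivity
          have h5 : (2 : ℝ) ^ (17 * d ^ 2) * ((i : ℝ) + 1) ≤
              2 ^ (17 * d ^ 2) * (2 * Real.logb 2 (2 / ε)) :=
            mul_le_mul_of_nonneg_left (by linarith) h4.le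
          linarith
        · have h1 := hn1.trans (second_le i d h)
          have h3 : ({p : ℝ × ℝ | p ∈ A n ∧ p ∈ zeroSet P}.ncard : ℝ) ≤ 2 ^ (17 * d ^ 2) := by
            exact_mod_cast h1
          exact h3.trans (le_mul_of_one_le_right (by positivity) hlog1)
      · have h1 := hn1.trans (md_le i d hd)
        have h2 : (((2 ^ (i + 3) + 1) * (d * (d + 3) / 2) : ℕ) : ℝ) ≤
            (2 ^ (i + 3) + 1) * ((d * (d + 3) : ℝ) / 2) := by
          push_cast
          apply mul_le_mul_of_nonneg_left _ (by positivity)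
          have h3 := Nat.cast_div_le (α := ℝ) (m := d * (d + 3)) (n := 2)
          push_cast at h3
          exact h3
        have h3 : ({p : ℝ × ℝ | p ∈ A n ∧ p ∈ zeroSet P}.ncard : ℝ) ≤
            (2 ^ (i + 3) + 1) * ((d * (d + 3) : ℝ) / 2) := by
          refine le_trans ?_ h2
          exact_mod_cast h1
        refine h3.trans ?_
        have h4 : (2 : ℝ) ^ (i + 3) + 1 ≤ 17 / ε := by
          have h5 : (2 : ℝ) ^ (i + 3) = 8 * 2 ^ i := by ring
          have h6 : 8 * (2 / ε) + 1 / ε = 17 / ε := by ring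
          rw [h5, ← h6]
          linarith
        have h5 : (0 : ℝ) ≤ (d * (d + 3) : ℝ) / 2 := by positivity
        refine (mul_le_mul_of_nonneg_right h4 h5).trans ?_
        rw [div_mul_eq_mul_div]
        apply div_le_div_of_nonneg_right _ hε.le
        linarith

end Pool.Agent.Results.MP_68669d_co.LogarithmicConstants
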