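import Pool.Agent.H21.SM.Set

/-!
Finite planar sets `A_n` with `|A_n + A_n| = |A_n| ^ (1 + o(1))` such that every real plane
algebraic curve of degree `d` contains at most `2 d ^ 2` points of `A_n` outside its irreducible
components that are bounded and infinite and are conics or have many singular points.
-/

set_option autoImplicit false

open Filter
open scoped Pointwise

namespace Pool.Agent.Results.MP_68669d_co.SmoothOrUnbounded

open MvPolynomial

/-- The real zero set of a polynomial in two variables. -/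
def zeroSet (Q : MvPolynomial (Fin 2) ℝ) : Set (ℝ × ℝ) :=
  {p | MvPolynomial.eval ![p.1, p.2] Q = 0}

/-- The homogenization `F(X, Y, Z) = Z ^ d * Q(X / Z, Y / Z)`, `d` the degree of `Q`. -/
noncomputable def homogenization (Q : MvPolynomial (Fin 2) ℝ) : MvPolynomial (Fin 3) ℝ :=
  ∑ k ∈ Finset.range (Q.totalDegree + 1),
    rename Fin.castSucc (homogeneousComponent k Q) * X 2 ^ (Q.totalDegree - k)

/-- The projective closure of the plane curve `Q = 0` has no complex singular point on the line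
at infinity: the partial derivatives of the homogenization have no common zero `(x, y, 0)`
besides `0`. -/
def SmoothAtInfinity (Q : MvPolynomial (Fin 2) ℝ) : Prop :=
  ∀ v : Fin 3 → ℂ, v 2 = 0 → (∀ i, aeval v (pderiv i (homogenization Q)) = 0) → v = 0

/-- The total Tjurina number of the affine curve `Q = 0`: the dimension of the quotient of
`ℝ[X, Y]` by the ideal generated by `Q` and its two partial derivatives. -/
noncomputable def tjurina (Q : MvPolynomial (Fin 2) ℝ) : Cardinal :=
  Module.rank ℝ (MvPolynomial (Fin 2) ℝ ⧸ Ideal.span {Q, pderiv 0 Q, pderiv 1 Q})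

/-- The degree `d` of `Q` is at least `3`, the curve has no singular point at infinity, and its
total Tjurina number is less than `d (d - 2) / 8`. -/
def FewSingularities (Q : MvPolynomial (Fin 2) ℝ) : Prop :=
  3 ≤ Q.totalDegree ∧ SmoothAtInfinity Q ∧
    8 * tjurina Q < ((Q.totalDegree * (Q.totalDegree - 2) : ℕ) : Cardinal)

theorem four_pow (n : ℕ) (hn : 5 ≤ n) : n * (n + 1) ≤ 4 ^ (n - 2) := by
  induction n, hn using Nat.le_induction with
  | base => norm_num
  | succ m hm ih =>
    have h1 : m + 1 - 2 = (m - 2) + 1 := by omega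
    rw [h1, pow_succ]
    nlinarith

theorem card_ge (c k n : ℕ) (hk : 4 ≤ k) (hn : 5 ≤ n) (h : k ^ n ≤ c * (n * k ^ 2 + 1)) :
    n ≤ c := by
  by_contra hcon
  push Not at hcon
  have h1 : n * (n + 1) ≤ k ^ (n - 2) :=
    (four_pow n hn).trans (Nat.pow_le_pow_left hk _)
  have h2 : k ^ n = k ^ (n - 2) * k ^ 2 := by
    rw [← pow_add]
    congr 1
    omega
  have h3 : n * k ^ 2 + 1 ≤ (n + 1) * k ^ 2 := by nlinarith
  have h4 : c * (n * k ^ 2 + 1) < n * (n + 1) * k ^ 2 := by
    calc c * (n * k ^ 2 + 1) < n * (n * k ^ 2 + 1) := by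
          apply Nat.mul_lt_mul_of_pos_right hcon
          positivity
      _ ≤ n * ((n + 1) * k ^ 2) := Nat.mul_le_mul_left _ h3
      _ = _ := by ring
  have h5 : n * (n + 1) * k ^ 2 ≤ k ^ n := by
    rw [h2]
    exact Nat.mul_le_mul_right _ h1
  omega

/-- The numerical inequality behind small doubling. -/
theorem doubling_ineq (ε : ℝ) (hε : 0 < ε) (k n c s : ℕ) (hk : 2 ≤ k) (hkn : k ≤ n)
    (hlog : Real.log 2 + 4 * (1 + ε) ≤ ε * Real.log k)
    (h : k ^ n ≤ c * (n * k ^ 2 + 1)) (hs : s ≤ (2 * k) ^ n) :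
    (s : ℝ) ≤ (c : ℝ) ^ (1 + ε) := by
  have hn : 2 ≤ n := hk.trans hkn
  have hk0 : (0 : ℝ) < k := by positivity
  have hn0 : (0 : ℝ) < n := by positivity
  have h1 : n * k ^ 2 + 1 ≤ n ^ 4 := by
    have : n * k ^ 2 ≤ n ^ 3 := by
      calc n * k ^ 2 ≤ n * n ^ 2 := Nat.mul_le_mul_left _ (Nat.pow_le_pow_left hkn 2)
        _ = n ^ 3 := by ring
    have h8 : 8 ≤ n ^ 3 := by
      calc 8 = 2 ^ 3 := by norm_num
        _ ≤ n ^ 3 := Nat.pow_le_pow_left hn 3
    calc n * k ^ 2 + 1 ≤ n ^ 3 + 1 := by omega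
      _ ≤ n ^ 3 * 2 := by omega
      _ ≤ n ^ 3 * n := Nat.mul_le_mul_left _ hn
      _ = n ^ 4 := by ring
  have h2 : k ^ n ≤ c * n ^ 4 := h.trans (Nat.mul_le_mul_left _ h1)
  have hc : 0 < c := by
    rcases Nat.eq_zero_or_pos c with h0 | h0
    · rw [h0] at h2
      have : 0 < k ^ n := by positivity
      omega
    · exact h0
  have hc0 : (0 : ℝ) < c := by exact_mod_cast hc
  have h3 : (k : ℝ) ^ n ≤ c * (n : ℝ) ^ 4 := by exact_mod_cast h2
  have h4 : n * Real.log k ≤ Real.log c + 4 * Real.log n := by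
    have := Real.log_le_log (by positivity) h3
    rw [Real.log_pow, Real.log_mul (by positivity) (by positivity), Real.log_pow] at this
    exact_mod_cast this
  have h5 : Real.log n ≤ n := (Real.log_le_sub_one_of_pos hn0).trans (by linarith)
  have h6 : (s : ℝ) ≤ (2 * (k : ℝ)) ^ n := by exact_mod_cast hs
  have h7 : Real.log ((2 * (k : ℝ)) ^ n) ≤ Real.log ((c : ℝ) ^ (1 + ε)) := by
    rw [Real.log_pow, Real.log_rpow hc0, Real.log_mul (by norm_num) (by positivity)]
    have h8 : (n : ℝ) * (Real.log 2 + 4 * (1 + ε)) ≤ n * (ε * Real.log k) :=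
      mul_le_mul_of_nonneg_left hlog hn0.le
    have h9 : (1 + ε) * (n * Real.log k) ≤ (1 + ε) * (Real.log c + 4 * n) :=
      mul_le_mul_of_nonneg_left (by linarith) (by linarith)
    nlinarith
  refine h6.trans ?_
  exact (Real.log_le_log_iff (by positivity) (by positivity)).mp h7

/-- There are finite planar sets `A_n` with small doubling `|A_n + A_n| = |A_n| ^ (1 + o(1))`
such that every plane curve `P = 0` of degree `d` contains at most `2 d ^ 2` points of `A_n`
with the property that every irreducible component through the point is finite, or unbounded, or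
has degree at least `3` and few singular points. -/
theorem result :
    ∃ A : ℕ → Finset (ℝ × ℝ),
      Tendsto (fun n => (A n).card) atTop atTop ∧
      (∀ ε : ℝ, 0 < ε → ∀ᶠ n in atTop,
        (((A n + A n).card : ℕ) : ℝ) ≤ (((A n).card : ℕ) : ℝ) ^ (1 + ε)) ∧
      ∀ d n : ℕ, ∀ P : MvPolynomial (Fin 2) ℝ, P ≠ 0 → P.totalDegree ≤ d →
        {p : ℝ × ℝ | p ∈ A n ∧ p ∈ zeroSet P ∧
          ∀ Q : MvPolynomial (Fin 2) ℝ, Irreducible Q → Q ∣ P → p ∈ zeroSet Q →
            (zeroSet Q).Finite ∨ ¬ Bornology.IsBounded (zeroSet Q) ∨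
              FewSingularities Q}.ncard ≤ 2 * d ^ 2 := by
  choose A hA1 hA2 hA3 _ using fun n => H21.SM.exists_set (max 1 n) n (le_max_left _ _)
  refine ⟨A, ?_, ?_, ?_⟩
  · refine tendsto_atTop_mono' _ ?_ tendsto_id
    filter_upwards [eventually_ge_atTop 5] with n hn
    have h1 := hA1 n
    rw [max_eq_right (by omega)] at h1
    exact card_ge _ _ _ (by omega) hn h1
  · intro ε hε
    have hlog : ∀ᶠ n : ℕ in atTop, Real.log 2 + 4 * (1 + ε) ≤ ε * Real.log (n : ℝ) := by
      have h1 : Tendsto (fun n : ℕ => ε * Real.log (n : ℝ)) atTop atTop := by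
        apply Tendsto.const_mul_atTop hε
        exact Real.tendsto_log_atTop.comp tendsto_natCast_atTop_atTop
      exact h1.eventually_ge_atTop _
    filter_upwards [eventually_ge_atTop 2, hlog] with n h1 h2
    have h4 := hA1 n
    have h5 := hA2 n
    rw [max_eq_right (by omega)] at h4 h5
    exact doubling_ineq ε hε n n _ _ h1 le_rfl h2 h4 h5
  · intro d n P hP hPd
    refine le_trans (Set.ncard_le_ncard ?_ ?_)
      ((hA3 n P hP).trans (Nat.mul_le_mul_left 2 (Nat.pow_le_pow_left hPd 2)))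
    · rintro p ⟨hp1, hp2, hp3⟩
      refine ⟨hp1, hp2, fun Q hQ hQP hQp => ?_⟩
      rcases hp3 Q hQ hQP hQp with h | h | ⟨h1, h2, h3⟩
      · exact Or.inl (Or.inl h)
      · exact Or.inl (Or.inr h)
      · exact Or.inr ⟨h1, h2, h3⟩
    · exact (A n).finite_toSet.subset fun p hp => hp.1

end Pool.Agent.Results.MP_68669d_co.SmoothOrUnbounded
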