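import Pool.Agent.H54.Build

/-!
Finite planar sets `A_n` with `|A_n + A_n| = |A_n| ^ (1 + o(1))` such that every real plane
algebraic curve of degree at most `d` contains at most `2 d ^ 2` points of `A_n` outside its
bounded infinite irreducible components, while on all curves of degree at most `d` the number of
points of `A_n` grows as slowly as prescribed.
-/

set_option autoImplicit false

open Filter
open scoped Pointwise

namespace Pool.Agent.Results.MP_68669d_co.UnboundedCurves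

/-- The real zero set of a polynomial in two variables. -/
def zeroSet (Q : MvPolynomial (Fin 2) ℝ) : Set (ℝ × ℝ) :=
  {p | MvPolynomial.eval ![p.1, p.2] Q = 0}

/-- The nondecreasing minorant of `ω`. -/
noncomputable def minorant (ω : ℕ → ℕ) (n : ℕ) : ℕ := sInf (ω '' Set.Ici n)

theorem minorant_le (ω : ℕ → ℕ) {n m : ℕ} (h : n ≤ m) : minorant ω n ≤ ω m :=
  Nat.sInf_le ⟨m, h, rfl⟩

theorem minorant_tendsto (ω : ℕ → ℕ) (hω : Tendsto ω atTop atTop) :
    Tendsto (minorant ω) atTop atTop := by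
  rw [tendsto_atTop]
  intro K
  obtain ⟨N, hN⟩ := eventually_atTop.1 (hω.eventually_ge_atTop K)
  filter_upwards [eventually_ge_atTop N] with n hn
  have hne : (ω '' Set.Ici n).Nonempty := ⟨ω n, n, Set.mem_Ici.2 le_rfl, rfl⟩
  obtain ⟨m, hm, hme⟩ := Nat.sInf_mem hne
  unfold minorant
  rw [← hme]
  exact hN m (hn.trans hm)

/-- The side length of the cube used at stage `n`: the largest `k ≤ n` with `k ^ k ≤ ω n`. -/
def side (ω : ℕ → ℕ) (n : ℕ) : ℕ := Nat.findGreatest (fun k => k ^ k ≤ ω n) n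

theorem side_le (ω : ℕ → ℕ) (n : ℕ) : side ω n ≤ n := Nat.findGreatest_le n

theorem side_tendsto (ω : ℕ → ℕ) (hω : Tendsto ω atTop atTop) :
    Tendsto (side ω) atTop atTop := by
  rw [tendsto_atTop]
  intro K
  filter_upwards [eventually_ge_atTop K, hω.eventually_ge_atTop (K ^ K)] with n h1 h2
  exact Nat.le_findGreatest h1 h2

theorem side_pow (ω : ℕ → ℕ) (n : ℕ) (h : 1 ≤ side ω n) : side ω n ^ side ω n ≤ ω n := by
  have h1 : side ω n ≠ 0 := by omega
  exact Nat.findGreatest_of_ne_zero (P := fun k => k ^ k ≤ ω n) (n := n) rfl h1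

theorem four_pow (n : ℕ) (hn : 5 ≤ n) : n * (n + 1) ≤ 4 ^ (n - 2) := by
  induction n, hn using Nat.le_induction with
  | base => norm_num
  | succ m hm ih =>
    have h1 : m + 1 - 2 = (m - 2) + 1 := by omega
    rw [h1, pow_succ]
    nlinarith

theorem card_ge (c k n : ℕ) (hk : 4 ≤ k) (hn : 5 ≤ n) (h : k ^ n ≤ c * (n * k ^ 2 + 1)) :
    n ≤ c := by
  by_contra hcon
  push Not at hcon
  have h1 : n * (n + 1) ≤ k ^ (n - 2) :=
    (four_pow n hn).trans (Nat.pow_le_pow_left hk _)
  have h2 : k ^ n = k ^ (n - 2) * k ^ 2 := by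
    rw [← pow_add]
    congr 1
    omega
  have h3 : n * k ^ 2 + 1 ≤ (n + 1) * k ^ 2 := by nlinarith
  have h4 : c * (n * k ^ 2 + 1) < n * (n + 1) * k ^ 2 := by
    calc c * (n * k ^ 2 + 1) < n * (n * k ^ 2 + 1) := by
          apply Nat.mul_lt_mul_of_pos_right hcon
          positivity
      _ ≤ n * ((n + 1) * k ^ 2) := Nat.mul_le_mul_left _ h3
      _ = _ := by ring
  have h5 : n * (n + 1) * k ^ 2 ≤ k ^ n := by
    rw [h2]
    exact Nat.mul_le_mul_right _ h1
  omega

/-- The numerical inequality behind small doubling. -/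
theorem doubling_ineq (ε : ℝ) (hε : 0 < ε) (k n c s : ℕ) (hk : 2 ≤ k) (hkn : k ≤ n)
    (hlog : Real.log 2 + 4 * (1 + ε) ≤ ε * Real.log k)
    (h : k ^ n ≤ c * (n * k ^ 2 + 1)) (hs : s ≤ (2 * k) ^ n) :
    (s : ℝ) ≤ (c : ℝ) ^ (1 + ε) := by
  have hn : 2 ≤ n := hk.trans hkn
  have hk0 : (0 : ℝ) < k := by positivity
  have hn0 : (0 : ℝ) < n := by positivity
  have h1 : n * k ^ 2 + 1 ≤ n ^ 4 := by
    have : n * k ^ 2 ≤ n ^ 3 := by
      calc n * k ^ 2 ≤ n * n ^ 2 := Nat.mul_le_mul_left _ (Nat.pow_le_pow_left hkn 2)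
        _ = n ^ 3 := by ring
    have h8 : 8 ≤ n ^ 3 := by
      calc 8 = 2 ^ 3 := by norm_num
        _ ≤ n ^ 3 := Nat.pow_le_pow_left hn 3
    calc n * k ^ 2 + 1 ≤ n ^ 3 + 1 := by omega
      _ ≤ n ^ 3 * 2 := by omega
      _ ≤ n ^ 3 * n := Nat.mul_le_mul_left _ hn
      _ = n ^ 4 := by ring
  have h2 : k ^ n ≤ c * n ^ 4 := h.trans (Nat.mul_le_mul_left _ h1)
  have hc : 0 < c := by
    rcases Nat.eq_zero_or_pos c with h0 | h0
    · rw [h0] at h2
      have : 0 < k ^ n := by positivity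
      omega
    · exact h0
  have hc0 : (0 : ℝ) < c := by exact_mod_cast hc
  have h3 : (k : ℝ) ^ n ≤ c * (n : ℝ) ^ 4 := by exact_mod_cast h2
  have h4 : n * Real.log k ≤ Real.log c + 4 * Real.log n := by
    have := Real.log_le_log (by positivity) h3
    rw [Real.log_pow, Real.log_mul (by positivity) (by positivity), Real.log_pow] at this
    exact_mod_cast this
  have h5 : Real.log n ≤ n := (Real.log_le_sub_one_of_pos hn0).trans (by linarith)
  have h6 : (s : ℝ) ≤ (2 * (k : ℝ)) ^ n := by exact_mod_cast hs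
  have h7 : Real.log ((2 * (k : ℝ)) ^ n) ≤ Real.log ((c : ℝ) ^ (1 + ε)) := by
    rw [Real.log_pow, Real.log_rpow hc0, Real.log_mul (by norm_num) (by positivity)]
    have h8 : (n : ℝ) * (Real.log 2 + 4 * (1 + ε)) ≤ n * (ε * Real.log k) :=
      mul_le_mul_of_nonneg_left hlog hn0.le
    have h9 : (1 + ε) * (n * Real.log k) ≤ (1 + ε) * (Real.log c + 4 * n) :=
      mul_le_mul_of_nonneg_left (by linarith) (by linarith)
    nlinarith
  refine h6.trans ?_
  exact (Real.log_le_log_iff (by positivity) (by positivity)).mp h7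

/-- For every function `ω` tending to infinity there are finite planar sets `A_n` with small
doubling `|A_n + A_n| = |A_n| ^ (1 + o(1))` such that, for every `d`,

* every plane curve of degree at most `d` contains at most `2 d ^ 2` points of `A_n` all of whose
  irreducible components are finite or unbounded, and
* every plane curve of degree at most `d` contains at most `ω |A_n|` points of `A_n`, for all
  sufficiently large `n`. -/
theorem result (ω : ℕ → ℕ) (hω : Tendsto ω atTop atTop) :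
    ∃ A : ℕ → Finset (ℝ × ℝ),
      Tendsto (fun n => (A n).card) atTop atTop ∧
      (∀ ε : ℝ, 0 < ε → ∀ᶠ n in atTop,
        (((A n + A n).card : ℕ) : ℝ) ≤ (((A n).card : ℕ) : ℝ) ^ (1 + ε)) ∧
      (∀ d n : ℕ, ∀ P : MvPolynomial (Fin 2) ℝ, P ≠ 0 → P.totalDegree ≤ d →
        {p : ℝ × ℝ | p ∈ A n ∧ p ∈ zeroSet P ∧
          ∀ Q : MvPolynomial (Fin 2) ℝ, Irreducible Q → Q ∣ P → p ∈ zeroSet Q →
            (zeroSet Q).Finite ∨ ¬ Bornology.IsBounded (zeroSet Q)}.ncard ≤ 2 * d ^ 2) ∧
      (∀ d : ℕ, ∀ᶠ n in atTop, ∀ P : MvPolynomial (Fin 2) ℝ, P ≠ 0 → P.totalDegree ≤ d →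
        {p : ℝ × ℝ | p ∈ A n ∧ p ∈ zeroSet P}.ncard ≤ ω (A n).card) := by
  obtain ⟨ω', hω'⟩ : ∃ ω' : ℕ → ℕ, ω' = minorant ω := ⟨_, rfl⟩
  have hωt : Tendsto ω' atTop atTop := by
    rw [hω']
    exact minorant_tendsto ω hω
  choose A hA1 hA2 hA3 hA4 using fun n => H54.exists_set (max 1 (side ω' n)) n (le_max_left _ _)
  have hside : ∀ K, ∀ᶠ n in atTop, K ≤ side ω' n := fun K =>
    (side_tendsto ω' hωt).eventually_ge_atTop K
  have hcard : ∀ᶠ n in atTop, n ≤ (A n).card := by
    filter_upwards [hside 4, eventually_ge_atTop 5] with n h1 h2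
    have h3 : max 1 (side ω' n) = side ω' n := max_eq_right (by omega)
    have h4 := hA1 n
    rw [h3] at h4
    exact card_ge _ _ _ h1 h2 h4
  refine ⟨A, ?_, ?_, ?_, ?_⟩
  · exact tendsto_atTop_mono' _ hcard tendsto_id
  · intro ε hε
    have hlog : ∀ᶠ n in atTop, Real.log 2 + 4 * (1 + ε) ≤ ε * Real.log (side ω' n : ℝ) := by
      have h1 : Tendsto (fun n => ε * Real.log (side ω' n : ℝ)) atTop atTop := by
        apply Tendsto.const_mul_atTop hε
        apply Real.tendsto_log_atTop.comp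
        exact tendsto_natCast_atTop_atTop.comp (side_tendsto ω' hωt)
      exact h1.eventually_ge_atTop _
    filter_upwards [hside 2, hlog] with n h1 h2
    have h3 : max 1 (side ω' n) = side ω' n := max_eq_right (by omega)
    have h4 := hA1 n
    have h5 := hA2 n
    rw [h3] at h4 h5
    exact doubling_ineq ε hε (side ω' n) n _ _ h1 (side_le ω' n) h2 h4 h5
  · intro d n P hP hPd
    refine (hA3 n P hP).trans ?_
    exact Nat.mul_le_mul_left _ (Nat.pow_le_pow_left hPd 2)
  · intro d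
    filter_upwards [hcard, eventually_ge_atTop d, hside ((d + 1) * (d + 2) / 2), hside 1] with
      n h1 h2 h3 h4 P hP hPd
    have h5 : max 1 (side ω' n) = side ω' n := max_eq_right h4
    have h6 := hA4 n d (h2.trans h1) P hP hPd
    rw [h5] at h6
    have h7 : side ω' n ^ side ω' n ≤ ω (A n).card := by
      refine (side_pow ω' n h4).trans ?_
      rw [hω']
      exact minorant_le ω h1
    refine h6.trans (le_trans ?_ h7)
    exact Nat.pow_le_pow_right h4 h3

end Pool.Agent.Results.MP_68669d_co.UnboundedCurves
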